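import Pool.Agent.H25.Spread

open Finset Matrix Pool.Agent.H25.Spread

namespace Pool.Agent.Results.MP_e61cf5_co.Gap

variable {n : ℕ}

lemma vals_W {E : Fin n → Fin n → Bool} {r : ℝ} (h : r ∈ vals E) : (r : ℂ) ∈ Wr E := by
  obtain ⟨x, x0, x1, rfl⟩ := h
  refine ⟨fun i => x i, by simp [← Complex.ofReal_sum, x0], ?_, ?_⟩
  · rw [norm_re]; simp [x1]
  · rw [← lap_map Complex.ofRealHom]
    apply Complex.ext
    · rw [form_re]; simp [dotProduct]
    · rw [form_im]; simp [dotProduct, mulVec]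

lemma W_re {E : Fin n → Fin n → Bool} {α β : ℝ} (hα : IsLeast (vals E) α)
    (hβ : IsGreatest (vals E) β) {z : ℂ} (h : z ∈ Wr E) : α ≤ z.re ∧ z.re ≤ β := by
  obtain ⟨l1, l2⟩ := lo_vals hα hβ
  obtain ⟨v, v0, v1, rfl⟩ := h
  have a0 : ∑ i, (v i).re = 0 := by rw [← Complex.re_sum, v0]; rfl
  have b0 : ∑ i, (v i).im = 0 := by rw [← Complex.im_sum, v0]; rfl
  rw [norm_re] at v1
  have v2 := Complex.ofReal_eq_one.1 v1
  rw [← lap_map Complex.ofRealHom, form_re]
  have h1 := l1 _ a0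
  have h2 := l1 _ b0
  have h3 := l2 _ a0
  have h4 := l2 _ b0
  simp only [neg_mulVec, dotProduct_neg] at h3 h4
  set a := fun i => (v i).re
  set b := fun i => (v i).im
  have e1 : α * a ⬝ᵥ a + α * b ⬝ᵥ b = α := by rw [← mul_add, v2, mul_one]
  have e2 : β * a ⬝ᵥ a + β * b ⬝ᵥ b = β := by rw [← mul_add, v2, mul_one]
  constructor <;> linarith

theorem result (n : ℕ) (hn : 2 ≤ n) (E : Fin n → Fin n → Bool) (_hE : ∀ i, E i i = false)
    (Q : Matrix (Fin n) (Fin (n - 1)) ℂ) (hQ : Restrictor Q) (hP : Polygonal E Q)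
    (α β : ℝ) (hα : IsLeast (vals E) α) (hβ : IsGreatest (vals E) β) :
    ¬(0 < β - α ∧ β - α < 1) := by
  have key : ∀ l ∈ spectrum ℂ (Qᴴ * lap ℂ E * Q),
      IsIntegral ℤ (2 * l.re) ∧ α ≤ l.re ∧ l.re ≤ β := by
    intro l hl
    obtain ⟨x, hx, x0, t, h⟩ := (spec_Q hQ (by omega) _ l).1 hl
    refine ⟨?_, W_re hα hβ (spec_mem_W E l t x hx x0 h)⟩
    have hi : IsIntegral ℤ l := by
      by_cases h0 : l = 0
      · rw [h0]; exact isIntegral_zero
      refine int_eig (lap ℤ E) l (x + (t / l) • fun _ => 1) (fun h1 => hx ?_) ?_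
      · have h2 := congrArg (fun v => ∑ i, v i) h1
        have h3 : (n : ℂ) ≠ 0 := by exact_mod_cast (by omega : n ≠ 0)
        simp only [Pi.add_apply, sum_add_distrib, x0, Pi.smul_apply, smul_eq_mul, mul_one,
          sum_const, card_univ, Fintype.card_fin, nsmul_eq_mul, zero_add, Pi.zero_apply,
          mul_zero] at h2
        rwa [(mul_eq_zero.1 h2).resolve_left h3, zero_smul, add_zero] at h1
      · rw [lap_map, mulVec_add, mulVec_smul, lap_one, h, smul_add, smul_smul,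
          mul_div_cancel₀ _ h0, smul_zero, add_zero]
    have h2 := hi.add (hi.map (starRingEnd ℂ).toIntAlgHom)
    rw [← isIntegral_algebraMap_iff (B := ℂ) Complex.ofReal_injective]
    rwa [RingHom.toIntAlgHom_apply, Complex.add_conj] at h2
  refine gap hn hα hβ ?_ ?_
  · by_contra hc
    have := convexHull_min (t := {z : ℂ | α < z.re}) (fun l hl => lt_of_le_of_ne (key l hl).2.1
      fun h => hc (h ▸ (key l hl).1)) (convex_halfSpace_re_gt α) (hP ▸ vals_W hα.1)
    simp at this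
  · by_contra hc
    have := convexHull_min (t := {z : ℂ | z.re < β}) (fun l hl => lt_of_le_of_ne (key l hl).2.2
      fun h => hc (h ▸ (key l hl).1)) (convex_halfSpace_re_lt β) (hP ▸ vals_W hβ.1)
    simp at this

end Pool.Agent.Results.MP_e61cf5_co.Gap
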